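import Mathlib
import Pool.Agent.Y18.LC.Stm3

set_option autoImplicit false

/-! Job LC-CYA: infinite elementary abelian extensions of `ℚ` inside cyclotomic fields. -/

namespace Pool.Agent.Y86.LC

open NumberField IntermediateField

/-- a ring generated by a root of unity of order prime to `l` is reduced modulo `l` -/
lemma radical_of_adjoin {R : Type} [CommRing R] {l N : ℕ} (hl : l.Prime) (hN : N ≠ 0)
    (hlN : ¬ l ∣ N) (z : R) (hz : z ^ N = 1) (htop : Algebra.adjoin ℤ {z} = ⊤) :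
    (Ideal.span {(l : R)}).IsRadical := by
  by_cases hI : Ideal.span {(l : R)} = ⊤
  · rw [hI]
    exact fun x _ => trivial
  have hcop : Nat.Coprime l N := (Nat.Prime.coprime_iff_not_dvd hl).2 hlN
  have hf : l ^ N.totient ≡ 1 [MOD N] := Nat.ModEq.pow_totient hcop
  have hf0 : N.totient ≠ 0 := (Nat.totient_pos.2 (Nat.pos_of_ne_zero hN)).ne'
  set f := N.totient with hfdef
  have : Nontrivial (R ⧸ Ideal.span {(l : R)}) := Ideal.Quotient.nontrivial_iff.2 hI
  have hl0 : ((l : ℕ) : R ⧸ Ideal.span {(l : R)}) = 0 := by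
    rw [← map_natCast (Ideal.Quotient.mk (Ideal.span {(l : R)})), Ideal.Quotient.eq_zero_iff_mem]
    exact Ideal.mem_span_singleton_self _
  have : Fact l.Prime := ⟨hl⟩
  have : CharP (R ⧸ Ideal.span {(l : R)}) l := (CharP.charP_iff_prime_eq_zero hl).2 hl0
  have hzf : z ^ (l ^ f) = z := by
    have h1 : 1 ≤ l ^ f := Nat.one_le_pow _ _ hl.pos
    obtain ⟨k, hk⟩ := (Nat.modEq_iff_dvd' h1).1 hf.symm
    have h2 : l ^ f = 1 + N * k := by omega
    rw [h2, pow_add, pow_mul, hz, one_pow, pow_one, mul_one]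
  have key : ∀ y : R, (Ideal.Quotient.mk (Ideal.span {(l : R)}) y) ^ (l ^ f) =
      Ideal.Quotient.mk (Ideal.span {(l : R)}) y := by
    have h1 : ((iterateFrobenius (R ⧸ Ideal.span {(l : R)}) l f).comp
        (Ideal.Quotient.mk (Ideal.span {(l : R)}))).toIntAlgHom =
        (Ideal.Quotient.mk (Ideal.span {(l : R)})).toIntAlgHom := by
      refine AlgHom.ext_of_adjoin_eq_top htop ?_
      intro y hy
      rw [Set.mem_singleton_iff] at hy
      subst hy
      show iterateFrobenius (R ⧸ Ideal.span {(l : R)}) l f (Ideal.Quotient.mk _ y) =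
        Ideal.Quotient.mk _ y
      rw [iterateFrobenius_def, ← map_pow, hzf]
    intro y
    have h2 := DFunLike.congr_fun h1 y
    rw [← iterateFrobenius_def]
    exact h2
  rintro x ⟨n, hn⟩
  rw [← Ideal.Quotient.eq_zero_iff_mem] at hn ⊢
  rw [map_pow] at hn
  have h3 : ∀ k : ℕ, (Ideal.Quotient.mk (Ideal.span {(l : R)}) x) ^ ((l ^ f) ^ k) =
      Ideal.Quotient.mk (Ideal.span {(l : R)}) x := by
    intro k
    induction k with
    | zero => rw [pow_zero, pow_one]
    | succ k ih => rw [pow_succ, pow_mul, ih, key]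
  have h4 : n ≤ (l ^ f) ^ n := by
    have h5 : 2 ≤ l ^ f := hl.two_le.trans (Nat.le_self_pow hf0 l)
    exact (Nat.lt_pow_self (by omega)).le
  rw [← h3 n, ← Nat.sub_add_cancel h4, pow_add, hn, mul_zero]

lemma cyc_radical {E : Type} [Field E] [CharZero E] [inst : Algebra ℚ E] (N : ℕ) [NeZero N]
    (h : IsCyclotomicExtension {N} ℚ E) {l : ℕ} (hl : l.Prime) (hlN : ¬ l ∣ N) :
    (Ideal.span {(l : 𝓞 E)}).IsRadical := by
  have e : inst = DivisionRing.toRatAlgebra := Subsingleton.elim _ _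
  subst e
  have : NumberField E := IsCyclotomicExtension.numberField {N} ℚ E
  have hζ := IsCyclotomicExtension.zeta_spec N ℚ E
  exact radical_of_adjoin hl (NeZero.ne N) hlN hζ.toInteger
    hζ.toInteger_isPrimitiveRoot.pow_eq_one (IsCyclotomicExtension.Rat.adjoin_singleton_eq_top hζ)

section Omega

variable {Ω : Type} [Field Ω] [CharZero Ω]

lemma dvd_iff_integral (K : IntermediateField ℚ Ω) (a : 𝓞 K) {l : ℕ} (hl : l ≠ 0) :
    a ∈ Ideal.span {(l : 𝓞 K)} ↔ IsIntegral ℤ (((a : K) : Ω) / l) := by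
  have hlΩ : (l : Ω) ≠ 0 := Nat.cast_ne_zero.2 hl
  rw [Ideal.mem_span_singleton]
  constructor
  · rintro ⟨b, hb⟩
    have h1 : ((a : K) : Ω) = l * ((b : K) : Ω) := by
      have := congrArg (fun t : 𝓞 K => ((t : K) : Ω)) hb
      simpa using this
    rw [h1, mul_div_cancel_left₀ _ hlΩ]
    exact b.2.map (K.val.toRingHom.toIntAlgHom)
  · intro h
    have h2 : IsIntegral ℤ ((a : K) / (l : K)) := by
      have h3 : K.val.toRingHom.toIntAlgHom ((a : K) / (l : K)) = ((a : K) : Ω) / l := by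
        rw [map_div₀, map_natCast]
        rfl
      rw [← h3] at h
      exact (isIntegral_algHom_iff K.val.toRingHom.toIntAlgHom K.val.toRingHom.injective).1 h
    have hlK : (l : K) ≠ 0 := Nat.cast_ne_zero.2 hl
    obtain ⟨b, hb⟩ : ∃ b : 𝓞 K, (b : K) = (a : K) / (l : K) := ⟨⟨_, h2⟩, rfl⟩
    refine ⟨b, ?_⟩
    apply RingOfIntegers.coe_injective
    rw [map_mul, map_natCast]
    rw [show algebraMap (𝓞 K) K b = (a : K) / (l : K) from hb, mul_div_cancel₀ _ hlK]

lemma part3 [IsAlgClosed Ω] (A : IntermediateField ℚ Ω) (Q : Set ℕ) (hQ : ∀ q ∈ Q, q.Prime)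
    (hA : A ≤ adjoin ℚ {z : Ω | ∃ q ∈ Q, q ≠ 0 ∧ z ^ q = 1}) (l : ℕ) (hl : l.Prime)
    (hlQ : l ∉ Q) : (Ideal.span {(l : 𝓞 A)}).IsRadical := by
  classical
  rintro x ⟨n, hn⟩
  obtain ⟨T, hT, hxT⟩ := exists_finset_of_mem_adjoin (hA (x : A).2)
  have hN : ∃ N : ℕ, N ≠ 0 ∧ ¬ l ∣ N ∧ ∀ z ∈ T, z ^ N = 1 := by
    clear hxT
    induction T using Finset.induction_on with
    | empty => exact ⟨1, one_ne_zero, hl.not_dvd_one, by simp⟩
    | insert a s ha ih =>
      obtain ⟨N, hN0, hlN, hN⟩ := ih (fun z hz => hT (by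
        rw [Finset.coe_insert]; exact Set.mem_insert_of_mem _ hz))
      obtain ⟨q, hq, hq0, haq⟩ := hT (by rw [Finset.coe_insert]; exact Set.mem_insert _ _)
      refine ⟨N * q, mul_ne_zero hN0 hq0, ?_, ?_⟩
      · intro hd
        rcases (Nat.Prime.dvd_mul hl).1 hd with h1 | h1
        · exact hlN h1
        · rw [Nat.prime_dvd_prime_iff_eq hl (hQ q hq)] at h1
          exact hlQ (h1 ▸ hq)
      · intro z hz
        rcases Finset.mem_insert.1 hz with rfl | hz
        · rw [mul_comm, pow_mul, haq, one_pow]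
        · rw [pow_mul, hN z hz, one_pow]
  obtain ⟨N, hN0, hlN, hN⟩ := hN
  have : NeZero N := ⟨hN0⟩
  have : NeZero (N : Ω) := ⟨Nat.cast_ne_zero.2 hN0⟩
  obtain ⟨ζ, hζ⟩ : ∃ ζ : Ω, IsPrimitiveRoot ζ N := by
    obtain ⟨ζ, h⟩ := IsAlgClosed.exists_root (Polynomial.cyclotomic N Ω)
      (Polynomial.degree_cyclotomic_pos N Ω (Nat.pos_of_ne_zero hN0)).ne'
    exact ⟨ζ, Polynomial.isRoot_cyclotomic_iff.1 h⟩
  set E : IntermediateField ℚ Ω := adjoin ℚ {ζ} with hE
  have hcyc : IsCyclotomicExtension {N} ℚ E :=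
    (IntermediateField.isCyclotomicExtension_singleton_iff_eq_adjoin N ℚ Ω E hζ).2 rfl
  have hrad := cyc_radical (E := E) N hcyc hl hlN
  have hxE : ((x : A) : Ω) ∈ E := by
    have h1 : adjoin ℚ (T : Set Ω) ≤ E := by
      rw [adjoin_le_iff]
      intro z hz
      obtain ⟨i, _, hi⟩ := hζ.eq_pow_of_pow_eq_one (hN z hz)
      rw [← hi]
      exact pow_mem (mem_adjoin_simple_self ℚ ζ) i
    exact h1 hxT
  have hxint : IsIntegral ℤ ((x : A) : Ω) := x.2.map (A.val.toRingHom.toIntAlgHom)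
  have hxint' : IsIntegral ℤ (⟨((x : A) : Ω), hxE⟩ : E) :=
    (isIntegral_algHom_iff E.val.toRingHom.toIntAlgHom E.val.toRingHom.injective).1 hxint
  obtain ⟨x', hx'⟩ : ∃ x' : 𝓞 E, ((x' : E) : Ω) = ((x : A) : Ω) :=
    ⟨⟨⟨((x : A) : Ω), hxE⟩, hxint'⟩, rfl⟩
  rw [dvd_iff_integral A _ hl.ne_zero] at hn ⊢
  have h1 : (x' ^ n) ∈ Ideal.span {(l : 𝓞 E)} := by
    rw [dvd_iff_integral E _ hl.ne_zero]
    have e1 : (((x' ^ n : 𝓞 E) : E) : Ω) = ((x : A) : Ω) ^ n := by
      simp [hx']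
    have e2 : (((x ^ n : 𝓞 A) : A) : Ω) = ((x : A) : Ω) ^ n := by
      simp
    rw [e1, ← e2]
    exact hn
  have h2 : x' ∈ Ideal.span {(l : 𝓞 E)} := hrad ⟨n, h1⟩
  rw [dvd_iff_integral E _ hl.ne_zero, hx'] at h2
  exact h2

end Omega

section fix

variable {K C : Type} [Field K] [Field C] [Algebra K C]

/-- the elements fixed by all `p`-th powers of automorphisms -/
def fixP (K C : Type) [Field K] [Field C] [Algebra K C] (p : ℕ) : IntermediateField K C where
  carrier := {x | ∀ g : C ≃ₐ[K] C, (g ^ p) x = x}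
  mul_mem' := by
    intro a b ha hb g
    rw [map_mul, ha g, hb g]
  add_mem' := by
    intro a b ha hb g
    rw [map_add, ha g, hb g]
  algebraMap_mem' := by
    intro r g
    exact AlgEquiv.commutes _ r
  inv_mem' := by
    intro a ha g
    rw [map_inv₀, ha g]

lemma mem_fixP {p : ℕ} {x : C} : x ∈ fixP K C p ↔ ∀ g : C ≃ₐ[K] C, (g ^ p) x = x := Iff.rfl

lemma fixP_pow [IsAbelianGalois K C] (p : ℕ) (g : fixP K C p ≃ₐ[K] fixP K C p) : g ^ p = 1 := by
  obtain ⟨h, rfl⟩ := AlgEquiv.restrictNormalHom_surjective (F := K) (K₁ := fixP K C p) C g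
  rw [← map_pow]
  ext x
  have h1 := AlgEquiv.restrictNormal_commutes (h ^ p) (fixP K C p) x
  have h2 : (AlgEquiv.restrictNormalHom (fixP K C p) (h ^ p)) x =
    ((h ^ p).restrictNormal (fixP K C p)) x := rfl
  rw [h2]
  show algebraMap (fixP K C p) C _ = _
  rw [h1]
  exact mem_fixP.1 x.2 h

open scoped IsMulCommutative in
/-- the part of degree `p` of the field of `q`-th roots of unity -/
lemma inf_ne_bot [IsAbelianGalois K C] {p q : ℕ} [Fact p.Prime] (hq : q.Prime) (hqp : q % p = 1)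
    (hirr : Irreducible (Polynomial.cyclotomic q K))
    {ζ : C} (hζ : IsPrimitiveRoot ζ q) : fixP K C p ⊓ adjoin K {ζ} ≠ ⊥ := by
  intro hbot
  have : NeZero q := ⟨hq.ne_zero⟩
  set E : IntermediateField K C := adjoin K {ζ} with hE
  have hcyc : IsCyclotomicExtension {q} K E :=
    (IntermediateField.isCyclotomicExtension_singleton_iff_eq_adjoin q K C E hζ).2 rfl
  have : FiniteDimensional K E := IsCyclotomicExtension.finiteDimensional {q} K E
  have : IsGalois K E := IsCyclotomicExtension.isGalois {q} K E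
  have hcard : Nat.card (E ≃ₐ[K] E) = q - 1 := by
    rw [IsGalois.card_aut_eq_finrank, IsCyclotomicExtension.finrank (n := q) E hirr,
      Nat.totient_prime hq]
  have hfix : fixedField (powMonoidHom p : (E ≃ₐ[K] E) →* (E ≃ₐ[K] E)).range = ⊥ := by
    rw [eq_bot_iff]
    intro x hx
    have hx' : (x : C) ∈ fixP K C p ⊓ E := by
      refine ⟨?_, x.2⟩
      show (x : C) ∈ fixP K C p
      rw [mem_fixP]
      intro g
      have h1 := AlgEquiv.restrictNormal_commutes (g ^ p) E x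
      have h2 : (g ^ p).restrictNormal E = (AlgEquiv.restrictNormalHom E g) ^ p := by
        rw [← map_pow]
        rfl
      have h3 : ((AlgEquiv.restrictNormalHom E g) ^ p) x = x :=
        hx ⟨_, ⟨AlgEquiv.restrictNormalHom E g, rfl⟩⟩
      rw [h2, h3] at h1
      exact h1.symm
    rw [hbot] at hx'
    obtain ⟨r, hr⟩ := IntermediateField.mem_bot.1 hx'
    exact IntermediateField.mem_bot.2 ⟨r, Subtype.ext hr⟩
  have htop : (powMonoidHom p : (E ≃ₐ[K] E) →* (E ≃ₐ[K] E)).range = ⊤ := by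
    rw [← IntermediateField.fixingSubgroup_fixedField
      (powMonoidHom p : (E ≃ₐ[K] E) →* (E ≃ₐ[K] E)).range, hfix]
    exact IntermediateField.fixingSubgroup_bot
  have hsurj : Function.Surjective (powMonoidHom p : (E ≃ₐ[K] E) →* (E ≃ₐ[K] E)) :=
    MonoidHom.range_eq_top.1 htop
  have hinj : Function.Injective (powMonoidHom p : (E ≃ₐ[K] E) →* (E ≃ₐ[K] E)) :=
    Finite.injective_iff_surjective.2 hsurj
  have hdvd : p ∣ Nat.card (E ≃ₐ[K] E) := by
    rw [hcard]
    have := Nat.div_add_mod q p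
    rw [hqp] at this
    exact ⟨q / p, by omega⟩
  obtain ⟨g, hg⟩ := exists_prime_orderOf_dvd_card' p hdvd
  have h1 : powMonoidHom p g = powMonoidHom p (1 : E ≃ₐ[K] E) := by
    simp only [powMonoidHom_apply, one_pow]
    rw [← hg, pow_orderOf_eq_one]
  rw [hinj h1, orderOf_one] at hg
  exact (Fact.out : p.Prime).one_lt.ne hg

/-- the fields of `q`-th and `q'`-th roots of unity -/
lemma inf_bot (hirr : ∀ n : ℕ, 0 < n → Irreducible (Polynomial.cyclotomic n K)) {q q' : ℕ}
    (hq : q.Prime) (hq' : q'.Prime) (hne : q ≠ q')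
    {ζ ζ' : C} (hζ : IsPrimitiveRoot ζ q) (hζ' : IsPrimitiveRoot ζ' q') :
    (adjoin K {ζ} : IntermediateField K C) ⊓ adjoin K {ζ'} = ⊥ := by
  have : NeZero q := ⟨hq.ne_zero⟩
  have : NeZero q' := ⟨hq'.ne_zero⟩
  set E : IntermediateField K C := adjoin K {ζ} with hE
  set E' : IntermediateField K C := adjoin K {ζ'} with hE'
  have hcyc : IsCyclotomicExtension {q} K E :=
    (IntermediateField.isCyclotomicExtension_singleton_iff_eq_adjoin q K C E hζ).2 rfl
  have hcyc' : IsCyclotomicExtension {q'} K E' :=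
    (IntermediateField.isCyclotomicExtension_singleton_iff_eq_adjoin q' K C E' hζ').2 rfl
  have hsup := IntermediateField.isCyclotomicExtension_lcm_sup K C q q' E E'
  have : FiniteDimensional K E := IsCyclotomicExtension.finiteDimensional {q} K E
  have : FiniteDimensional K E' := IsCyclotomicExtension.finiteDimensional {q'} K E'
  have hcop : Nat.Coprime q q' := (Nat.coprime_primes hq hq').2 hne
  rw [Nat.Coprime.lcm_eq_mul hcop] at hsup
  have : NeZero (q * q') := ⟨mul_ne_zero hq.ne_zero hq'.ne_zero⟩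
  refine (LinearDisjoint.of_finrank_sup ?_).inf_eq_bot
  rw [IsCyclotomicExtension.finrank (n := q * q') _ (hirr _ (Nat.mul_pos hq.pos hq'.pos)),
    IsCyclotomicExtension.finrank (n := q) E (hirr _ hq.pos),
    IsCyclotomicExtension.finrank (n := q') E' (hirr _ hq'.pos), Nat.totient_mul hcop]

/-- the field is infinite over `K` -/
lemma not_fd (hirr : ∀ n : ℕ, 0 < n → Irreducible (Polynomial.cyclotomic n K))
    [IsAbelianGalois K C] {p : ℕ} [Fact p.Prime] (Q : Set ℕ)
    (hQ : Q.Infinite) (h : ∀ q ∈ Q, q.Prime ∧ q % p = 1)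
    (hζ : ∀ q ∈ Q, ∃ ζ : C, IsPrimitiveRoot ζ q) : ¬ FiniteDimensional K (fixP K C p) := by
  intro hfd
  choose! z hz using hζ
  have hfin : Finite (IntermediateField K (fixP K C p)) :=
    Field.finite_intermediateField_of_exists_primitive_element K (fixP K C p)
      (Field.exists_primitive_element K (fixP K C p))
  have hinj : Set.InjOn (fun q => IntermediateField.restrict
      (inf_le_left : fixP K C p ⊓ adjoin K {z q} ≤ fixP K C p)) Q := by
    intro q hq q' hq' he
    by_contra hne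
    have h1 : fixP K C p ⊓ adjoin K {z q} = fixP K C p ⊓ adjoin K {z q'} := by
      have h2 := congrArg IntermediateField.lift he
      simp only [IntermediateField.lift_restrict] at h2
      exact h2
    apply inf_ne_bot (p := p) (h q hq).1 (h q hq).2 (hirr q (h q hq).1.pos) (hz q hq)
    rw [eq_bot_iff, ← inf_bot hirr (h q hq).1 (h q' hq').1 hne (hz q hq) (hz q' hq')]
    refine le_inf inf_le_right ?_
    rw [h1]
    exact inf_le_right
  exact hQ (Set.Finite.of_injOn (t := Set.univ) (fun _ _ => Set.mem_univ _) hinj Set.finite_univ)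

lemma generic {Ω : Type} [Field Ω] [Algebra K Ω]
    (hirr : ∀ n : ℕ, 0 < n → Irreducible (Polynomial.cyclotomic n K)) (C : IntermediateField K Ω)
    {p : ℕ} [Fact p.Prime] (Q : Set ℕ) (hcyc : IsCyclotomicExtension Q K C) (hQ : Q.Infinite)
    (h : ∀ q ∈ Q, q.Prime ∧ q % p = 1) :
    ∃ A : IntermediateField K Ω, (IsGalois K A ∧ (∀ g h : A ≃ₐ[K] A, g * h = h * g) ∧
      ∀ g : A ≃ₐ[K] A, g ^ p = 1) ∧ ¬ FiniteDimensional K A ∧ A ≤ C := by
  have : IsAbelianGalois K C := IsCyclotomicExtension.isAbelianGalois Q K C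
  have hζ : ∀ q ∈ Q, ∃ ζ : C, IsPrimitiveRoot ζ q := fun q hq =>
    IsCyclotomicExtension.exists_isPrimitiveRoot K C hq (h q hq).1.ne_zero
  set e : fixP K C p ≃ₐ[K] (IntermediateField.lift (fixP K C p)) :=
    IntermediateField.liftAlgEquiv (fixP K C p) with he
  have hab : IsAbelianGalois K (IntermediateField.lift (fixP K C p)) :=
    IsAbelianGalois.of_algHom e.symm.toAlgHom
  refine ⟨IntermediateField.lift (fixP K C p), ⟨inferInstance, ?_, ?_⟩, ?_,
    IntermediateField.lift_le _⟩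
  · intro g g'
    exact hab.is_comm.comm g g'
  · intro g
    apply (AlgEquiv.autCongr e).symm.injective
    rw [map_pow, map_one, fixP_pow]
  · intro hfd
    exact not_fd hirr Q hQ h hζ e.symm.toLinearEquiv.finiteDimensional

end fix

theorem cya : Pool.Agent.Y18.LC.CYA := by
  intro Ω _ _ _ p _ Q hQ h
  set C : IntermediateField ℚ Ω := adjoin ℚ {z : Ω | ∃ q ∈ Q, q ≠ 0 ∧ z ^ q = 1} with hC
  have hroot : ∀ n ∈ Q, n ≠ 0 → ∃ r : Ω, IsPrimitiveRoot r n := by
    intro n _ hn
    have : NeZero n := ⟨hn⟩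
    have : NeZero (n : Ω) := ⟨Nat.cast_ne_zero.2 hn⟩
    obtain ⟨ζ, h⟩ := IsAlgClosed.exists_root (Polynomial.cyclotomic n Ω)
      (Polynomial.degree_cyclotomic_pos n Ω (Nat.pos_of_ne_zero hn)).ne'
    exact ⟨ζ, Polynomial.isRoot_cyclotomic_iff.1 h⟩
  obtain ⟨A, h1, h2, h3⟩ := generic (fun n hn => Polynomial.cyclotomic.irreducible_rat hn) C
    (p := p) Q (IntermediateField.isCyclotomicExtension_adjoin_of_exists_isPrimitiveRoot Q ℚ Ω
      hroot) hQ h
  exact ⟨A, h1, h2, fun l hl hlQ => part3 A Q (fun q hq => (h q hq).1) h3 l hl hlQ⟩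

end Pool.Agent.Y86.LC
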